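import Pool.Agent.Q82.BC.Fin

/-!
Schwartz class solutions of the bad Boussinesq equation with blow-up rate exactly `(T - t)⁻¹` at a
prescribed point.
-/

set_option autoImplicit false

open MeasureTheory Filter Topology Set

namespace Pool.Agent.Results.MP_38bfeb_an.CriticalRate

/-- The bad Boussinesq equation at the point `(x, t)`. -/
def BadBoussinesq (u : ℝ → ℝ → ℝ) (x t : ℝ) : Prop :=
  iteratedDeriv 2 (fun t => u x t) t =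
    iteratedDeriv 2 (fun x => u x t) x + iteratedDeriv 2 (fun x => u x t ^ 2) x +
      iteratedDeriv 4 (fun x => u x t) x

/-- A Schwartz class solution on `ℝ × [0, T)`. It is smooth in the larger open set `ℝ × (-1, T)`, so
that all derivatives at `t = 0` are ordinary ones. -/
def SchwartzSolution (T : ℝ) (u : ℝ → ℝ → ℝ) : Prop :=
  (∀ n : ℕ, ContDiffOn ℝ n (fun q : ℝ × ℝ => u q.1 q.2) (univ ×ˢ Ioo (-1) T)) ∧
  (∀ x : ℝ, ∀ t ∈ Ico 0 T, BadBoussinesq u x t) ∧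
  ∀ (N : ℕ) (τ : ℝ), τ ∈ Ico 0 T → ∃ C : ℝ, ∀ x : ℝ, ∀ t ∈ Icc 0 τ,
    ∑ i ∈ Finset.range (N + 1), (1 + |x|) ^ N * |iteratedDeriv i (fun x => u x t) x| ≤ C

/-- `f` and `g` are comparable near `T`: with two positive constants, `c₁ g ≤ f ≤ c₂ g` on `[T₀, T)`. -/
def Comparable (T : ℝ) (f g : ℝ → ℝ) : Prop :=
  ∃ T₀ ∈ Ioo 0 T, ∃ c₁ c₂ : ℝ, 0 < c₁ ∧ 0 < c₂ ∧ ∀ t ∈ Ico T₀ T, c₁ * g t ≤ f t ∧ f t ≤ c₂ * g t

theorem result (T : ℝ) (hT : 0 < T) (x₀ : ℝ) :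
    ∃ (u : ℝ → ℝ → ℝ) (δ : ℝ), SchwartzSolution T u ∧ 1 ≤ δ ∧
      Comparable T (fun t => |u x₀ t|) (fun t => (T - t) ^ (-δ)) := by
  obtain ⟨u, h1, h2, h3, c1, c2, T0, hc1, hc2, hT0, hT0T, h4⟩ :=
    Pool.Agent.Q82.BC.main_all T x₀ hT
  refine ⟨u, 1, ⟨h1, fun x t ht => h2 x t ⟨by linarith [ht.1], ht.2⟩, ?_⟩, le_rfl, T0, ⟨hT0, hT0T⟩,
    c1, c2, hc1, hc2, ?_⟩
  · intro N τ hτ
    obtain ⟨C, hC⟩ := h3 N τ hτ.2
    refine ⟨∑ i ∈ Finset.range (N + 1), C, fun x t ht => Finset.sum_le_sum fun i hi => ?_⟩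
    exact hC x t ht i (Nat.lt_succ_iff.1 (Finset.mem_range.1 hi))
  · intro t ht
    have hpos : 0 < T - t := by linarith [ht.2]
    obtain ⟨ha, hb⟩ := h4 t ht
    have hu : 0 < u x₀ t := lt_of_lt_of_le (mul_pos hc1 (inv_pos.2 hpos)) ha
    show c1 * (T - t) ^ (-(1:ℝ)) ≤ |u x₀ t| ∧ |u x₀ t| ≤ c2 * (T - t) ^ (-(1:ℝ))
    rw [abs_of_pos hu, Real.rpow_neg_one]
    exact ⟨ha, hb⟩

end Pool.Agent.Results.MP_38bfeb_an.CriticalRate
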